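import Mathlib
import Pool.Agent.Y517.NT.Sys

/-!
# Job NT-HB (for helper517): Hahn-Banach, Krein-Milman and Riesz on `C(K)`
-/

set_option autoImplicit false

open Set Filter Topology MeasureTheory
open scoped CompactlySupported

noncomputable section

namespace Pool.Agent.Y978.NT

variable {K : Type} [TopologicalSpace K] [CompactSpace K]

/-- the positive normalized functionals vanishing on `E` -/
def MM (E : Submodule ℝ C(K, ℝ)) : Set (C(K, ℝ) → ℝ) :=
  {L | (∀ φ ψ, L (φ + ψ) = L φ + L ψ) ∧ (∀ (c : ℝ) φ, L (c • φ) = c * L φ) ∧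
    (∀ φ, 0 ≤ φ → 0 ≤ L φ) ∧ L 1 = 1 ∧ ∀ η ∈ E, L η = 0}

variable {E : Submodule ℝ C(K, ℝ)}

theorem MM_sub {L : C(K, ℝ) → ℝ} (h : L ∈ MM E) (φ ψ : C(K, ℝ)) : L (φ - ψ) = L φ - L ψ := by
  have h1 : φ - ψ = φ + (-1 : ℝ) • ψ := by rw [neg_one_smul, sub_eq_add_neg]
  rw [h1, h.1, h.2.1]
  ring

theorem MM_mono {L : C(K, ℝ) → ℝ} (h : L ∈ MM E) {φ ψ : C(K, ℝ)} (hle : φ ≤ ψ) : L φ ≤ L ψ := by
  have h1 := h.2.2.1 (ψ - φ) (sub_nonneg.2 hle)
  rw [MM_sub h] at h1
  linarith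

theorem MM_const {L : C(K, ℝ) → ℝ} (h : L ∈ MM E) (c : ℝ) : L (c • 1) = c := by
  rw [h.2.1, h.2.2.2.1, mul_one]

theorem smul_one_apply (c : ℝ) (z : K) : (c • (1 : C(K, ℝ))) z = c := by simp

theorem MM_bd {L : C(K, ℝ) → ℝ} (h : L ∈ MM E) (φ : C(K, ℝ)) : L φ ∈ Icc (-‖φ‖) ‖φ‖ := by
  have h0 : ∀ z, |φ z| ≤ ‖φ‖ := fun z => φ.norm_coe_le_norm z
  constructor
  · have h1 := MM_mono h (φ := (-‖φ‖) • 1) (ψ := φ) (ContinuousMap.le_def.2 fun z => by
      rw [smul_one_apply]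
      exact (abs_le.1 (h0 z)).1)
    rwa [MM_const h] at h1
  · have h1 := MM_mono h (ψ := ‖φ‖ • 1) (φ := φ) (ContinuousMap.le_def.2 fun z => by
      rw [smul_one_apply]
      exact (abs_le.1 (h0 z)).2)
    rwa [MM_const h] at h1

theorem MM_closed (E : Submodule ℝ C(K, ℝ)) : IsClosed (MM E) := by
  have e : ∀ φ : C(K, ℝ), Continuous fun L : C(K, ℝ) → ℝ => L φ := fun φ => continuous_apply φ
  unfold MM
  simp only [Set.ofPred_and, Set.ofPred_forall]
  refine IsClosed.inter ?_ (IsClosed.inter ?_ (IsClosed.inter ?_ (IsClosed.inter ?_ ?_)))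
  · exact isClosed_iInter fun φ => isClosed_iInter fun ψ => isClosed_eq (e _) ((e _).add (e _))
  · exact isClosed_iInter fun c => isClosed_iInter fun φ =>
      isClosed_eq (e _) (continuous_const.mul (e _))
  · exact isClosed_iInter fun φ => isClosed_iInter fun _ => isClosed_le continuous_const (e _)
  · exact isClosed_eq (e _) continuous_const
  · exact isClosed_iInter fun φ => isClosed_iInter fun _ => isClosed_eq (e _) continuous_const

theorem MM_compact (E : Submodule ℝ C(K, ℝ)) : IsCompact (MM E) := by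
  refine IsCompact.of_isClosed_subset
    (isCompact_univ_pi fun φ : C(K, ℝ) => isCompact_Icc (a := -‖φ‖) (b := ‖φ‖)) (MM_closed E) ?_
  intro L hL φ _
  exact MM_bd hL φ

/-- step (1): Hahn-Banach -/
theorem exists_state [Nonempty K] (E : Submodule ℝ C(K, ℝ)) (τ : C(K, ℝ))
    (h : ∀ η ∈ E, ∃ z, τ z + η z ≤ 0) : ∃ L ∈ MM E, L τ ≤ 0 := by
  have hP2 : IsOpen {φ : C(K, ℝ) | MapsTo φ univ (Ioi 0)} :=
    ContinuousMap.isOpen_setOfPred_mapsTo isCompact_univ isOpen_Ioi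
  have hPm : ∀ φ : C(K, ℝ), φ ∈ {φ : C(K, ℝ) | MapsTo φ univ (Ioi 0)} ↔ ∀ z, 0 < φ z := by
    intro φ
    constructor
    · intro h1 z
      exact h1 (mem_univ z)
    · intro h1 z _
      exact h1 z
  set P : Set C(K, ℝ) := {φ : C(K, ℝ) | MapsTo φ univ (Ioi 0)} with hP
  have hP1 : Convex ℝ P := by
    intro φ hφ ψ hψ a b ha hb hab
    rw [hPm] at hφ hψ ⊢
    intro z
    have h1 : (a • φ + b • ψ) z = a * φ z + b * ψ z := by simp
    rw [h1]
    have h2 := hφ z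
    have h3 := hψ z
    rcases ha.lt_or_eq with h4 | h4
    · have := mul_pos h4 h2
      have := mul_nonneg hb h3.le
      linarith
    · have h5 : b = 1 := by linarith
      rw [← h4, h5]
      linarith
  obtain ⟨A, hAdef⟩ : ∃ A : Set C(K, ℝ), A = {ψ | ψ - τ ∈ E} := ⟨_, rfl⟩
  have hAm : ∀ ψ, ψ ∈ A ↔ ψ - τ ∈ E := by
    intro ψ
    rw [hAdef]
    exact Iff.rfl
  have hA : Convex ℝ A := by
    intro φ hφ ψ hψ a b ha hb hab
    rw [hAm] at hφ hψ ⊢
    have h1 : a • φ + b • ψ - τ = a • (φ - τ) + b • (ψ - τ) := by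
      rw [smul_sub, smul_sub]
      have h2 : τ = a • τ + b • τ := by rw [← add_smul, hab, one_smul]
      nth_rw 1 [h2]
      abel
    rw [h1]
    exact E.add_mem (E.smul_mem _ hφ) (E.smul_mem _ hψ)
  have hd : Disjoint P A := by
    rw [Set.disjoint_left]
    intro φ hφ hφA
    rw [hPm] at hφ
    rw [hAm] at hφA
    obtain ⟨z, hz⟩ := h _ hφA
    have h1 := hφ z
    have h2 : (φ - τ) z = φ z - τ z := by simp
    rw [h2] at hz
    linarith
  obtain ⟨f, u, h1, h2⟩ := geometric_hahn_banach_open hP1 hP2 hA hd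
  have one_mem : ∀ c : ℝ, 0 < c → c • (1 : C(K, ℝ)) ∈ P := by
    intro c hc
    rw [hPm]
    intro z
    rw [smul_one_apply]
    exact hc
  have hu : 0 ≤ u := by
    have ht : Tendsto (fun c : ℝ => c * f 1) (𝓝[>] 0) (𝓝 (0 * f 1)) :=
      ((continuous_id.mul continuous_const).tendsto 0).mono_left nhdsWithin_le_nhds
    rw [zero_mul] at ht
    refine le_of_tendsto ht ?_
    filter_upwards [self_mem_nhdsWithin] with c hc
    have h3 := h1 _ (one_mem c hc)
    rw [map_smul, smul_eq_mul] at h3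
    exact h3.le
  have hfP : ∀ φ ∈ P, f φ ≤ 0 := by
    intro φ hφ
    by_contra hcon
    push Not at hcon
    have hφ' := (hPm φ).1 hφ
    have h3 : ((u + 1) / f φ) • φ ∈ P := by
      rw [hPm]
      intro z
      have h4 : (((u + 1) / f φ) • φ) z = (u + 1) / f φ * φ z := by simp
      rw [h4]
      exact mul_pos (div_pos (by linarith) hcon) (hφ' z)
    have h4 := h1 _ h3
    rw [map_smul, smul_eq_mul, div_mul_cancel₀ _ hcon.ne'] at h4
    linarith
  have hτA : ∀ η ∈ E, u ≤ f τ + f η := by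
    intro η hη
    have h3 := h2 (τ + η) ((hAm _).2 (by rw [add_sub_cancel_left]; exact hη))
    rwa [map_add] at h3
  have hfE : ∀ η ∈ E, f η = 0 := by
    intro η hη
    by_contra hne
    have h3 := hτA (((u - f τ - 1) / f η) • η) (E.smul_mem _ hη)
    rw [map_smul, smul_eq_mul, div_mul_cancel₀ _ hne] at h3
    linarith
  have hfτ : u ≤ f τ := by
    have h3 := hτA 0 E.zero_mem
    rwa [map_zero, add_zero] at h3
  have h11 : (1 : C(K, ℝ)) ∈ P := by
    have := one_mem 1 one_pos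
    rwa [one_smul] at this
  have hf1 : f 1 < 0 := by
    rcases (hfP 1 h11).lt_or_eq with h3 | h3
    · exact h3
    · exfalso
      have h4 : ∀ φ : C(K, ℝ), f φ ≤ 0 := by
        intro φ
        have h5 := hfP ((‖φ‖ + 1) • 1 + φ) (by
          rw [hPm]
          intro z
          have h6 : ((‖φ‖ + 1) • (1 : C(K, ℝ)) + φ) z = ‖φ‖ + 1 + φ z := by simp
          rw [h6]
          have h7 : |φ z| ≤ ‖φ‖ := φ.norm_coe_le_norm z
          have := (abs_le.1 h7).1
          linarith)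
        rw [map_add, map_smul, h3, smul_zero, zero_add] at h5
        exact h5
      have h5 := h1 1 h11
      have h6 := h4 τ
      linarith
  have hf1' : 0 < - f 1 := by linarith
  have hpos : ∀ φ : C(K, ℝ), 0 ≤ φ → f φ ≤ 0 := by
    intro φ hφ
    by_contra hcon
    push Not at hcon
    have h3 := hfP (φ + (f φ / (2 * (- f 1))) • 1) (by
      rw [hPm]
      intro z
      have h6 : (φ + (f φ / (2 * (- f 1))) • (1 : C(K, ℝ))) z = φ z + f φ / (2 * (- f 1)) := by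
        simp
      rw [h6]
      have h7 : 0 ≤ φ z := hφ z
      have h8 : 0 < f φ / (2 * (- f 1)) := by positivity
      linarith)
    rw [map_add, map_smul, smul_eq_mul] at h3
    have h4 : f φ / (2 * (- f 1)) * f 1 = - f φ / 2 := by
      have : f 1 ≠ 0 := hf1.ne
      field_simp
    rw [h4] at h3
    linarith
  refine ⟨fun φ => f φ / f 1, ⟨?_, ?_, ?_, ?_, ?_⟩, ?_⟩
  · intro φ ψ
    simp only [map_add, add_div]
  · intro c φ
    simp only [map_smul, smul_eq_mul, mul_div_assoc]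
  · intro φ hφ
    exact div_nonneg_of_nonpos (hpos φ hφ) hf1.le
  · exact div_self hf1.ne
  · intro η hη
    simp only [hfE η hη, zero_div]
  · exact div_nonpos_of_nonneg_of_nonpos (hu.trans hfτ) hf1.le

/-- step (2): an extreme functional -/
theorem exists_extreme (E : Submodule ℝ C(K, ℝ)) (τ : C(K, ℝ)) (h : ∃ L ∈ MM E, L τ ≤ 0) :
    ∃ L ∈ MM E, L τ ≤ 0 ∧ ∀ L₁ ∈ MM E, ∀ L₂ ∈ MM E, ∀ t : ℝ, 0 < t → t < 1 →
      (∀ φ, L φ = t * L₁ φ + (1 - t) * L₂ φ) → L₁ = L := by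
  obtain ⟨L₀, hL₀, h0⟩ := h
  obtain ⟨L', hL', hmin⟩ := (MM_compact E).exists_isMinOn ⟨L₀, hL₀⟩
    ((continuous_apply τ).continuousOn (s := MM E))
  obtain ⟨M', hM'⟩ : ∃ M' : Set (C(K, ℝ) → ℝ), M' = MM E ∩ {L | L τ ≤ L' τ} := ⟨_, rfl⟩
  have hc : IsCompact M' := by
    rw [hM']
    exact (MM_compact E).inter_right (isClosed_le (continuous_apply τ) continuous_const)
  have hne : M'.Nonempty := ⟨L', by rw [hM']; exact ⟨hL', le_refl (L' τ)⟩⟩
  obtain ⟨L, hL⟩ := hc.extremePoints_nonempty hne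
  rw [mem_extremePoints] at hL
  obtain ⟨hLM, hext⟩ := hL
  have hLM' := hLM
  rw [hM'] at hLM
  have hLτ : L τ ≤ L' τ := hLM.2
  have hmin' : ∀ L₁ ∈ MM E, L' τ ≤ L₁ τ := fun L₁ h1 => hmin h1
  refine ⟨L, hLM.1, hLτ.trans ((hmin' L₀ hL₀).trans h0), ?_⟩
  intro L₁ h1 L₂ h2 t ht0 ht1 he
  have e1 := hmin' L₁ h1
  have e2 := hmin' L₂ h2
  have e3 := he τ
  have m1 : L₁ τ ≤ L' τ := by nlinarith
  have m2 : L₂ τ ≤ L' τ := by nlinarith
  refine (hext L₁ ?_ L₂ ?_ ?_).1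
  · rw [hM']; exact ⟨h1, m1⟩
  · rw [hM']; exact ⟨h2, m2⟩
  · refine ⟨t, 1 - t, ht0, by linarith, by ring, ?_⟩
    funext φ
    rw [he φ]
    simp

/-- step (3): an extreme functional is multiplicative on multipliers -/
theorem mult {E : Submodule ℝ C(K, ℝ)} {L : C(K, ℝ) → ℝ} (hL : L ∈ MM E)
    (hext : ∀ L₁ ∈ MM E, ∀ L₂ ∈ MM E, ∀ t : ℝ, 0 < t → t < 1 →
      (∀ φ, L φ = t * L₁ φ + (1 - t) * L₂ φ) → L₁ = L) (F : C(K, ℝ))
    (hF : ∀ η ∈ E, F * η ∈ E) : ∃ c : ℝ, L ((F - c • 1) * (F - c • 1)) = 0 := by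
  obtain ⟨k, hk⟩ : ∃ k : ℝ, k = 4 * (‖F‖ + 1) := ⟨_, rfl⟩
  have hn := norm_nonneg F
  have hk0 : 0 < k := by rw [hk]; positivity
  obtain ⟨G, hG⟩ : ∃ G : C(K, ℝ), G = (1 / 2 : ℝ) • 1 + k⁻¹ • F := ⟨_, rfl⟩
  have hGz : ∀ z, G z = 1 / 2 + k⁻¹ * F z := by
    intro z
    rw [hG]
    simp
  have hFz : ∀ z, |k⁻¹ * F z| ≤ 1 / 4 := by
    intro z
    have h1 : |F z| ≤ ‖F‖ := F.norm_coe_le_norm z
    rw [abs_mul, abs_of_pos (inv_pos.2 hk0), inv_mul_le_iff₀ hk0, hk]
    linarith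
  have hG1 : ∀ z, 1 / 4 ≤ G z := fun z => by
    have := (abs_le.1 (hFz z)).1
    rw [hGz]
    linarith
  have hG2 : ∀ z, G z ≤ 3 / 4 := fun z => by
    have := (abs_le.1 (hFz z)).2
    rw [hGz]
    linarith
  obtain ⟨t, ht⟩ : ∃ t : ℝ, t = L G := ⟨_, rfl⟩
  have ht1 : 1 / 4 ≤ t := by
    have h1 := MM_mono hL (φ := (1 / 4 : ℝ) • 1) (ψ := G) (ContinuousMap.le_def.2 fun z => by
      rw [smul_one_apply]; exact hG1 z)
    rwa [MM_const hL, ← ht] at h1
  have ht2 : t ≤ 3 / 4 := by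
    have h1 := MM_mono hL (φ := G) (ψ := (3 / 4 : ℝ) • 1) (ContinuousMap.le_def.2 fun z => by
      rw [smul_one_apply]; exact hG2 z)
    rwa [MM_const hL, ← ht] at h1
  have hGE : ∀ η ∈ E, G * η ∈ E := by
    intro η hη
    have h1 : G * η = (1 / 2 : ℝ) • η + k⁻¹ • (F * η) := by
      rw [hG, add_mul, smul_mul_assoc, one_mul, smul_mul_assoc]
    rw [h1]
    exact E.add_mem (E.smul_mem _ hη) (E.smul_mem _ (hF η hη))
  have m1 : (fun φ => L (G * φ) / t) ∈ MM E := by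
    refine ⟨?_, ?_, ?_, ?_, ?_⟩
    · intro φ ψ
      simp only [mul_add, hL.1, add_div]
    · intro c φ
      simp only [mul_smul_comm, hL.2.1, mul_div_assoc]
    · intro φ hφ
      refine div_nonneg (hL.2.2.1 _ fun z => ?_) (by linarith)
      exact mul_nonneg (by have := hG1 z; linarith) (hφ z)
    · simp only [mul_one]
      rw [← ht]
      exact div_self (by linarith)
    · intro η hη
      simp only [hL.2.2.2.2 _ (hGE η hη), zero_div]
  have m2 : (fun φ => L ((1 - G) * φ) / (1 - t)) ∈ MM E := by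
    refine ⟨?_, ?_, ?_, ?_, ?_⟩
    · intro φ ψ
      simp only [mul_add, hL.1, add_div]
    · intro c φ
      simp only [mul_smul_comm, hL.2.1, mul_div_assoc]
    · intro φ hφ
      refine div_nonneg (hL.2.2.1 _ fun z => ?_) (by linarith)
      exact mul_nonneg (by
        have := hG2 z
        show 0 ≤ 1 - G z
        linarith) (hφ z)
    · simp only [mul_one]
      rw [MM_sub hL, ← ht, hL.2.2.2.1]
      exact div_self (by linarith)
    · intro η hη
      have h1 : L ((1 - G) * η) = 0 := by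
        rw [sub_mul, one_mul, MM_sub hL, hL.2.2.2.2 _ hη, hL.2.2.2.2 _ (hGE η hη), sub_zero]
      simp only [h1, zero_div]
  have hkey := hext _ m1 _ m2 t (by linarith) (by linarith) (by
    intro φ
    have h1 : t ≠ 0 := by linarith
    have h2 : 1 - t ≠ 0 := by linarith
    rw [mul_div_cancel₀ _ h1, mul_div_cancel₀ _ h2, sub_mul, one_mul, MM_sub hL]
    ring)
  have hm : ∀ φ, L (G * φ) = t * L φ := by
    intro φ
    have h1 : L (G * φ) / t = L φ := congrFun hkey φ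
    have h2 : t ≠ 0 := by linarith
    rw [div_eq_iff h2] at h1
    rw [h1]
    ring
  have hFe : F - (k * (t - 1 / 2)) • 1 = k • (G - t • 1) := by
    ext z
    have h1 : (k • (G - t • (1 : C(K, ℝ)))) z = k * (G z - t) := by simp
    have h2 : (F - (k * (t - 1 / 2)) • (1 : C(K, ℝ))) z = F z - k * (t - 1 / 2) := by simp
    rw [h1, h2, hGz]
    field_simp
    ring
  refine ⟨k * (t - 1 / 2), ?_⟩
  rw [hFe, smul_mul_smul_comm, hL.2.1]
  have h3 : (G - t • (1 : C(K, ℝ))) * (G - t • 1) = G * (G - t • 1) - t • (G - t • 1) := by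
    rw [sub_mul, smul_mul_assoc, one_mul]
  rw [h3, MM_sub hL, hm, hL.2.1, sub_self, mul_zero]

/-- step (4): the measure -/
theorem measure_of [T2Space K] [MeasurableSpace K] [BorelSpace K] {E : Submodule ℝ C(K, ℝ)}
    {L : C(K, ℝ) → ℝ} (hL : L ∈ MM E) : ∃ μ : Measure K, IsProbabilityMeasure μ ∧
      ∀ φ : C(K, ℝ), ∫ z, φ z ∂μ = L φ := by
  let Λ₀ : C_c(K, ℝ) →ₗ[ℝ] ℝ :=
    { toFun := fun g => L g.toContinuousMap
      map_add' := fun g g' => hL.1 g.toContinuousMap g'.toContinuousMap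
      map_smul' := fun c g => hL.2.1 c g.toContinuousMap }
  let Λ : C_c(K, ℝ) →ₚ[ℝ] ℝ := PositiveLinearMap.mk₀ Λ₀ (fun g hg => hL.2.2.1 g.toContinuousMap hg)
  have h1 : ∀ φ : C(K, ℝ), ∫ z, φ z ∂(RealRMK.rieszMeasure Λ) = L φ := by
    intro φ
    exact RealRMK.integral_rieszMeasure Λ (CompactlySupportedContinuousMap.continuousMapEquiv φ)
  refine ⟨RealRMK.rieszMeasure Λ, ?_, h1⟩
  have h2 := h1 1
  rw [hL.2.2.2.1] at h2
  have h3 : ∫ z : K, (1 : C(K, ℝ)) z ∂(RealRMK.rieszMeasure Λ) =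
      (RealRMK.rieszMeasure Λ).real univ := by
    have : ∀ z : K, (1 : C(K, ℝ)) z = (1 : ℝ) := fun z => rfl
    simp only [this, integral_const, smul_eq_mul, mul_one]
  rw [h3] at h2
  constructor
  rw [← ENNReal.toReal_eq_one_iff]
  exact h2

theorem t_HB : Pool.Agent.Y517.NT.S_HB := by
  intro K _ _ _ _ _ E τ h
  have hK : Nonempty K := by
    obtain ⟨z, _⟩ := h 0 E.zero_mem
    exact ⟨z⟩
  obtain ⟨L, hL, hLτ, hext⟩ := exists_extreme E τ (exists_state E τ h)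
  obtain ⟨μ, hμ, hint⟩ := measure_of hL
  refine ⟨μ, hμ, fun η hη => by rw [hint, hL.2.2.2.2 η hη], by rw [hint]; exact hLτ, ?_⟩
  intro F hF
  obtain ⟨c, hc⟩ := mult hL hext F hF
  refine ⟨c, ?_⟩
  rw [← hint] at hc
  have h0 : 0 ≤ fun z => ((F - c • (1 : C(K, ℝ))) * (F - c • 1)) z := by
    intro z
    exact mul_self_nonneg ((F - c • (1 : C(K, ℝ))) z)
  have hi : Integrable (fun z => ((F - c • (1 : C(K, ℝ))) * (F - c • 1)) z) μ :=
    (map_continuous _).integrable_of_hasCompactSupport (HasCompactSupport.of_compactSpace _)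
  rw [integral_eq_zero_iff_of_nonneg h0 hi] at hc
  filter_upwards [hc] with z hz
  have h1 : (F z - c) * (F z - c) = 0 := by
    have h2 : ((F - c • (1 : C(K, ℝ))) * (F - c • 1)) z = (F z - c) * (F z - c) := by simp
    rw [← h2]
    exact hz
  have h2 : F z - c = 0 := by simpa using h1
  linarith

end Pool.Agent.Y978.NT
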